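import Pool.Agent.Helper32_ND.Stmts

/-!
# Module RLOC: locality, homogeneity, integrality and diagonal values of the forms
-/

set_option autoImplicit false

namespace Pool.Agent.ND.H93

open Finset

section

variable {ι : Type} [Fintype ι] [DecidableEq ι] {n : ℕ} {A : Arr ι n} {K : Type} [Field K]

theorem pr_e {r : ℕ} (X : Finset ι) (F : Fin r → ι) :
    pr r X (e A K F) = if A.cl F = X then e A K F else 0 := by
  unfold pr
  rw [dg_e]
  by_cases h : A.cl F = X
  · rw [if_pos h, if_pos h, one_smul]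
  · rw [if_neg h, if_neg h, zero_smul]

theorem pr_dg {r : ℕ} (X : Finset ι) (w : Finset ι → K) (b : OS A K r) :
    pr r X (dg A r w b) = w X • pr r X b := by
  have h : (pr r X).comp (dg A r w) = w X • (pr r X : OS A K r →ₗ[K] OS A K r) := by
    refine hom_ext fun F => ?_
    rw [LinearMap.comp_apply, dg_e, map_smul, LinearMap.smul_apply, pr_e]
    by_cases hF : A.cl F = X
    · rw [if_pos hF, hF]
    · rw [if_neg hF, smul_zero, smul_zero]
  exact LinearMap.congr_fun h b

/-- the form on a generator -/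
theorem R_e (ρ : ι → K) (r : ℕ) (F : Fin (r + 1) → ι) (b : OS A K (r + 1)) :
    R A ρ (r + 1) (e A K F) b = (∑ i ∈ A.cl F, ρ i)⁻¹ *
      R A ρ r (bd A K r (e A K F)) (bd A K r (pr (r + 1) (A.cl F) b)) := by
  rw [R_succ, Finset.sum_eq_single (A.cl F)]
  · rw [pr_e, if_pos rfl]
  · intro X _ hX
    rw [pr_e, if_neg (Ne.symm hX), map_zero, map_zero, LinearMap.zero_apply, mul_zero]
  · intro h
    exact absurd (Finset.mem_univ _) h

/-- diagonal operators are selfadjoint -/
theorem R_e_dg (ρ : ι → K) (r : ℕ) (w : Finset ι → K) (F : Fin (r + 1) → ι)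
    (b : OS A K (r + 1)) :
    R A ρ (r + 1) (e A K F) (dg A (r + 1) w b) = w (A.cl F) * R A ρ (r + 1) (e A K F) b := by
  rw [R_e, R_e, pr_dg, map_smul, map_smul, smul_eq_mul]
  ring

theorem R_orth (ρ : ι → K) (r : ℕ) (F G : Fin r → ι) (h : A.cl F ≠ A.cl G) :
    R A ρ r (e A K F) (e A K G) = 0 := by
  cases r with
  | zero => exact absurd (congrArg A.cl (Subsingleton.elim F G)) h
  | succ r => rw [R_e, pr_e, if_neg (Ne.symm h), map_zero, map_zero, mul_zero]

theorem R_local (ρ ρ' : ι → K) (r : ℕ) : ∀ (F : Fin r → ι), (∀ i ∈ A.cl F, ρ i = ρ' i) →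
    ∀ b : OS A K r, R A ρ r (e A K F) b = R A ρ' r (e A K F) b := by
  induction r with
  | zero => intro F _ b; rw [R_zero, R_zero]
  | succ r ih =>
    intro F hF b
    rw [R_e, R_e, Finset.sum_congr rfl hF, bd_e]
    congr 1
    simp only [map_sum, map_smul, LinearMap.sum_apply, LinearMap.smul_apply]
    refine Finset.sum_congr rfl fun k _ => ?_
    rw [ih (F ∘ k.succAbove) fun i hi => hF i (cl_comp_subset F _ hi)]

theorem R_hom (ρ : ι → K) (c : K) (r : ℕ) : ∀ a b : OS A K r,
    R A (fun i => c * ρ i) r a b = (c⁻¹) ^ r * R A ρ r a b := by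
  induction r with
  | zero => intro a b; rw [R_zero, R_zero, pow_zero, one_mul]
  | succ r ih =>
    intro a b
    rw [R_succ, R_succ, Finset.mul_sum]
    refine Finset.sum_congr rfl fun X _ => ?_
    rw [ih, ← Finset.mul_sum, mul_inv, pow_succ]
    ring

theorem eps0_e (F : Fin 0 → ι) : eps0 A K (e A K F) = 1 := by
  unfold eps0
  rw [lift_e]

theorem eps0_mem (O : Subring K) {x : OS A K 0} (hx : x ∈ Lat A O 0) : eps0 A K x ∈ O := by
  unfold Lat at hx
  induction hx using Submodule.span_induction with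
  | mem x h =>
    obtain ⟨F, rfl⟩ := h
    rw [eps0_e]
    exact O.one_mem
  | zero => rw [map_zero]; exact O.zero_mem
  | add x y _ _ h1 h2 => rw [map_add]; exact O.add_mem h1 h2
  | smul a x _ h =>
    have : eps0 A K (a • x) = (a : K) * eps0 A K x := by
      change eps0 A K ((a : K) • x) = _
      rw [map_smul, smul_eq_mul]
    rw [this]
    exact O.mul_mem a.2 h

theorem bd_pr_mem (O : Subring K) {r : ℕ} (X : Finset ι) {x : OS A K (r + 1)}
    (hx : x ∈ Lat A O (r + 1)) : bd A K r (pr (r + 1) X x) ∈ Lat A O r := by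
  unfold Lat at hx
  induction hx using Submodule.span_induction with
  | mem x h =>
    obtain ⟨F, rfl⟩ := h
    rw [pr_e]
    by_cases hF : A.cl F = X
    · rw [if_pos hF, bd_e]
      refine Submodule.sum_mem _ fun k _ => ?_
      have h1 : e A K (F ∘ k.succAbove) ∈ Lat A O r := Submodule.subset_span ⟨_, rfl⟩
      have h2 : ((-1 : K) ^ (k : ℕ)) • e A K (F ∘ k.succAbove) =
          ((-1 : O) ^ (k : ℕ)) • e A K (F ∘ k.succAbove) := by
        change _ = (((-1 : O) ^ (k : ℕ) : O) : K) • e A K (F ∘ k.succAbove)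
        congr 1
      rw [h2]
      exact Submodule.smul_mem _ _ h1
    · rw [if_neg hF, map_zero]
      exact Submodule.zero_mem _
  | zero => rw [map_zero, map_zero]; exact Submodule.zero_mem _
  | add x y _ _ h1 h2 => rw [map_add, map_add]; exact Submodule.add_mem _ h1 h2
  | smul a x _ h =>
    have : bd A K r (pr (r + 1) X (a • x)) = a • bd A K r (pr (r + 1) X x) := by
      change bd A K r (pr (r + 1) X ((a : K) • x)) = (a : K) • bd A K r (pr (r + 1) X x)
      rw [map_smul, map_smul]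
    rw [this]
    exact Submodule.smul_mem _ _ h

theorem R_int (ρ : ι → K) (O : Subring K)
    (hO : ∀ X : Finset ι, X.Nonempty → (∑ i ∈ X, ρ i)⁻¹ ∈ O) (r : ℕ) :
    ∀ a ∈ Lat A O r, ∀ b ∈ Lat A O r, R A ρ r a b ∈ O := by
  induction r with
  | zero =>
    intro a ha b hb
    rw [R_zero]
    exact O.mul_mem (eps0_mem O ha) (eps0_mem O hb)
  | succ r ih =>
    intro a ha b hb
    rw [R_succ]
    refine O.sum_mem fun X _ => ?_
    refine O.mul_mem ?_ (ih _ (bd_pr_mem O X ha) _ (bd_pr_mem O X hb))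
    rcases Finset.eq_empty_or_nonempty X with h | h
    · rw [h, Finset.sum_empty, inv_zero]
      exact O.zero_mem
    · exact hO X h

theorem cl_face_ne {r : ℕ} {F : Fin (r + 1) → ι} (hF : A.Ind F) {k l : Fin (r + 1)}
    (hkl : k ≠ l) : A.cl (F ∘ k.succAbove) ≠ A.cl (F ∘ l.succAbove) := by
  intro h
  have h1 : F k ∉ A.cl (F ∘ k.succAbove) :=
    ((Ind_cons_iff _ _).1 ((Ind_cons_cycle F k).2 hF)).2
  obtain ⟨q, hq⟩ := Fin.exists_succAbove_eq hkl
  have h2 := self_mem_cl (A := A) (F ∘ l.succAbove) q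
  rw [Function.comp_apply, hq] at h2
  rw [h] at h1
  exact h1 h2

theorem R_diag (ρ : ι → K) (r : ℕ) (F : Fin (r + 1) → ι) (hF : A.Ind F) :
    R A ρ (r + 1) (e A K F) (e A K F) = (∑ i ∈ A.cl F, ρ i)⁻¹ *
      ∑ k : Fin (r + 1), R A ρ r (e A K (F ∘ k.succAbove)) (e A K (F ∘ k.succAbove)) := by
  rw [R_e, pr_e, if_pos rfl, bd_e]
  congr 1
  simp only [map_sum, map_smul, LinearMap.sum_apply, LinearMap.smul_apply]
  refine Finset.sum_congr rfl fun k _ => ?_
  rw [Finset.sum_eq_single k]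
  · rw [smul_smul, ← pow_add, ← two_mul, pow_mul, neg_one_sq, one_pow, one_smul]
  · intro l _ hl
    rw [R_orth ρ r _ _ (cl_face_ne hF hl), smul_zero]
  · intro h
    exact absurd (Finset.mem_univ _) h

end

theorem rloc : RlocStmt := by
  intro ι _ _ n A K _
  exact ⟨fun ρ ρ' r F h b => R_local ρ ρ' r F h b, fun ρ c r a b => R_hom ρ c r a b,
    fun ρ O h r => R_int ρ O h r, fun ρ F => by rw [R_zero, eps0_e, mul_one],
    fun ρ r F hF => R_diag ρ r F hF⟩

end Pool.Agent.ND.H93
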