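import Pool.Agent.Helper93_ND.Rloc

/-!
# Module TADJ: the adjoint of a shift operator is a shift operator
-/

set_option autoImplicit false

namespace Pool.Agent.ND.H93

open Finset

section

variable {ι : Type} [Fintype ι] [DecidableEq ι] {M : ℕ} {A : Arr ι (M + 2)} {K : Type} [Field K]
  [Algebra ℂ K]

/-- (3.1) -/
theorem R_Mj (P : Pts A) (ρ : ι → K) (j : ι) (a b : OS A K (M + 1)) :
    R A ρ (M + 1) (Mj P j a) b = R A (fun i => ρ i + ev j i) (M + 1) a (Mj P j b) := by
  have h : (R A ρ (M + 1)).comp (Mj P j) =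
      ((R A (fun i => ρ i + ev j i) (M + 1)).flip.comp (Mj P j)).flip := by
    refine hom_ext fun F => ?_
    refine LinearMap.ext fun b => ?_
    rw [LinearMap.comp_apply, LinearMap.flip_apply, LinearMap.comp_apply, LinearMap.flip_apply]
    unfold Mj
    rw [dg_e, map_smul, LinearMap.smul_apply, R_e_dg, smul_eq_mul]
    by_cases hF : A.Ind F
    · by_cases hj : j ∈ A.cl F
      · rw [(P.vmem F hF j).2 hj, map_zero, zero_mul, zero_mul]
      · congr 1
        refine R_local ρ _ (M + 1) F (fun i hi => ?_) b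
        have hij : i ≠ j := fun h => hj (h ▸ hi)
        unfold ev
        rw [Pi.single_eq_of_ne hij, add_zero]
    · rw [e_dep hF]
      simp
  have h2 := LinearMap.congr_fun (LinearMap.congr_fun h a) b
  rw [LinearMap.comp_apply, LinearMap.flip_apply, LinearMap.comp_apply, LinearMap.flip_apply] at h2
  exact h2

end

theorem tadj (hS : RsymStmt) (hR : RadjStmt) : TadjStmt := by
  intro ι _ _ M A P K _ _ ρ j h1 h2 a b
  rw [T_apply, T_apply, hR ι (M + 2) A K ρ h1, R_Mj, hS ι (M + 2) A K _ (M + 1),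
    ← hR ι (M + 2) A K _ h2, hS ι (M + 2) A K _ (M + 2)]

end Pool.Agent.ND.H93
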